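import Pool.Agent.H70VM.Main

/-!
# Truthful constant-factor revenue for additive value maximizers

The fully private setting with additive agents, divisible items and arbitrary budgets: for all `n`
and `m` there is a randomized mechanism which is truthful for every realisation of its random bits,
never pays an agent, and has expected revenue at least `OPT / 16416` on every instance.
-/

namespace Pool.Agent.Results.MP_4970b7_lc.ConstantRevenue

open H70VM

theorem result : ∀ n m : ℕ, ∃ M : RandMechanism n m,
    M.Truthful ∧
    (∀ (ω : M.Ω) (θ : Profile n m) (i : Fin n), 0 ≤ (M.mech ω).pay θ i) ∧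
    ∀ θ : Profile n m, (1 / 16416) * OPT θ ≤ M.revenue θ := by
  intro n m
  refine ⟨mechR n m, mechR_truthful n m, ?_, ?_⟩
  · rintro ⟨b, A⟩ θ i
    cases b
    · exact pay2_nonneg A θ i
    · exact pay1_nonneg i
  · intro θ
    have := mechR_bound θ
    linarith

end Pool.Agent.Results.MP_4970b7_lc.ConstantRevenue
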